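import Pool.Agent.Helper69.AS.St
import Pool.Agent.Helper24.PM.M_F1

/-!
# Project AS, module DD: pressure distance on a flat disc
-/

set_option autoImplicit false

open Filter Topology Matrix Set MeasureTheory
open scoped ENNReal ComplexOrder

namespace Pool.Agent.Helper27.AS

open Pool.Agent.Helper35.PM Pool.Agent.Helper69.AS

theorem tanhLe {x y : ℝ} (h : x ≤ y) : Real.tanh x ≤ Real.tanh y := by
  have hx := abs_lt.1 (Real.abs_tanh_lt_one x)
  have hy := abs_lt.1 (Real.abs_tanh_lt_one y)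
  rw [← Real.artanh_le_artanh_iff ⟨hx.1, hx.2⟩ ⟨hy.1, hy.2⟩, Real.artanh_tanh, Real.artanh_tanh]
  exact h

theorem tanhLt {x y : ℝ} (h : x < y) : Real.tanh x < Real.tanh y := by
  have hx := abs_lt.1 (Real.abs_tanh_lt_one x)
  have hy := abs_lt.1 (Real.abs_tanh_lt_one y)
  rw [← Real.artanh_lt_artanh_iff ⟨hx.1, hx.2⟩ ⟨hy.1, hy.2⟩, Real.artanh_tanh, Real.artanh_tanh]
  exact h

/-- Every complex number is a unimodular number times its modulus. -/
theorem unimod (ζ : ℂ) : ∃ c : ℂ, ‖c‖ = 1 ∧ c * (‖ζ‖ : ℂ) = ζ := by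
  by_cases h : ζ = 0
  · exact ⟨1, by simp, by simp [h]⟩
  · have hn : (‖ζ‖ : ℂ) ≠ 0 := by
      rw [Ne, Complex.ofReal_eq_zero, norm_eq_zero]
      exact h
    refine ⟨ζ / ‖ζ‖, ?_, div_mul_cancel₀ _ hn⟩
    rw [norm_div, Complex.norm_real, norm_norm, div_self (norm_ne_zero_iff.2 h)]

theorem hDD (hQF : St_QF) (hPO : St_PO) (hRA2 : St_RA2) (hCS : St_CS) (hFL : StFL) (hSD : StSD)
    (hEN : StEN) (hPC : StPC) : StDD := by
  intro R hR
  obtain ⟨s, hs⟩ : ∃ s, s = Real.tanh ((R + 2) / 2) := ⟨_, rfl⟩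
  obtain ⟨σ, hσ⟩ : ∃ σ, σ = Real.tanh ((R + 1) / 2) := ⟨_, rfl⟩
  have hσs : σ < s := by
    rw [hs, hσ]
    exact tanhLt (by linarith)
  have hσ0 : 0 ≤ σ := by
    rw [hσ]
    have h := tanhLe (show (0 : ℝ) ≤ (R + 1) / 2 by linarith)
    rwa [Real.tanh_zero] at h
  have hs1 : s < 1 := by
    rw [hs]
    exact (abs_lt.1 (Real.abs_tanh_lt_one _)).2
  obtain ⟨K, hK⟩ : ∃ K : ℝ, K = (s / (s - σ)) ^ 2 := ⟨_, rfl⟩
  have hK0 : 0 ≤ K := by
    rw [hK]
    positivity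
  refine ⟨Real.sqrt (400 * (R + 1) * R * K) + 1, by positivity, ?_⟩
  intro g hg U hU f hf ζ hζ
  rw [← hs]
  have hF : ∀ z ∈ Metric.ball (0 : ℂ) 1, Facts (f z) := fun z hz => hQF g hg (f z) (hf.2 z hz)
  have hP := hPO (SurfaceGroup g) f U hf.1 hF (fun z hz => hU (f z) (hf.2 z hz))
  obtain ⟨c, hc1, hc2⟩ := unimod ζ
  -- the length
  have hζ1 : ‖ζ‖ < 1 := hζ.trans_lt (abs_lt.1 (Real.abs_tanh_lt_one _)).2
  have hζm : ‖ζ‖ ∈ Ioo (-1 : ℝ) 1 := ⟨by linarith [norm_nonneg ζ], hζ1⟩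
  obtain ⟨L, hL⟩ : ∃ L : ℝ, L = 2 * Real.artanh ‖ζ‖ := ⟨_, rfl⟩
  have hL0 : 0 ≤ L := by
    rw [hL]
    have := Real.artanh_nonneg (norm_nonneg ζ)
    linarith
  have hLR : L ≤ R := by
    have hR1 := abs_lt.1 (Real.abs_tanh_lt_one (R / 2))
    have h := (Real.artanh_le_artanh_iff hζm ⟨hR1.1, hR1.2⟩).2 hζ
    rw [Real.artanh_tanh] at h
    rw [hL]
    linarith
  have hLz : zt L = (‖ζ‖ : ℂ) := by
    unfold zt
    rw [hL, mul_div_cancel_left₀ _ (by norm_num : (2 : ℝ) ≠ 0), Real.tanh_artanh hζm]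
  -- rotation
  have hcb : MapsTo (fun z : ℂ => c * z) (Metric.ball 0 1) (Metric.ball 0 1) := by
    intro z hz
    rw [mem_ball_zero_iff] at hz ⊢
    rw [norm_mul, hc1, one_mul]
    exact hz
  have hcd : DifferentiableOn ℂ (fun z : ℂ => c * z) (Metric.ball 0 1) := by fun_prop
  have hf' : HolDisc (fun z => f (c * z)) :=
    ⟨fun γ i j => (hf.1 γ i j).comp hcd hcb, fun z hz => hf.2 _ (hcb hz)⟩
  have hP' := hPC _ _ hP (fun z => c * z) hcd hcb
  obtain ⟨-, hdf, hfl⟩ := hFL _ _ hP s (by linarith) hs1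
  obtain ⟨G, hG, -, hGb⟩ := hfl σ hσ0 hσs
  rw [← hK] at hGb
  obtain ⟨D, hD⟩ : ∃ D : ℝ, D = df s (fun z => 1 / ent (f z)) := ⟨_, rfl⟩
  rw [← hD] at hGb hdf ⊢
  have hE0 : 0 ≤ K * D := mul_nonneg hK0 hdf
  obtain ⟨sd1, sd2⟩ := hSD _ _ hP' L (K * D) (fun z => G (c * z)) hL0 hE0 (hG.comp hcd hcb) (by
    intro w hw
    refine hGb (c * w) ?_
    rw [norm_mul, hc1, one_mul]
    refine hw.trans ?_
    rw [hσ]
    exact tanhLe (by linarith))
  have hzt : ∀ t : ℝ, zt t ∈ Metric.ball (0 : ℂ) 1 := Pool.Agent.Helper24.PM.zt_mem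
  have hj1 : ∀ t s : ℝ, 1 ≤ J (U (f (c * zt t))) (f (c * zt t)) (f (c * zt s)) := by
    intro t s'
    obtain ⟨Gt, -, h1, -⟩ := hP'.2 (zt t) (hzt t)
    have h2 := h1 (zt s') (hzt s')
    have h3 := hP'.1 (zt s') (hzt s')
    have h4 := h2.2
    rw [h2.1] at h4
    by_contra h5
    push Not at h5
    have h6 : J (U (f (c * zt t))) (f (c * zt t)) (f (c * zt s')) * (1 / ent (f (c * zt s'))) <
        1 * (1 / ent (f (c * zt s'))) := by
      apply mul_lt_mul_of_pos_right h5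
      exact lt_of_lt_of_le (by norm_num) h3
    rw [one_mul] at h6
    exact absurd h4 (not_le.2 h6)
  have hzc : Continuous zt := Pool.Agent.Helper24.PM.contDiff_zt.continuous
  have hcont : ContinuousOn (fun t : ℝ => (G (c * zt t)).re - 1 / ent (f (c * zt t)))
      (Icc (-(1 / 4)) (L + 1 / 4)) := by
    have h1 : ContinuousOn (fun z : ℂ => 1 / ent (f (c * z))) (Metric.ball 0 1) := hRA2 _ _ hP'
    have h2 : ContinuousOn (fun z : ℂ => (G (c * z)).re) (Metric.ball 0 1) :=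
      Complex.continuous_re.comp_continuousOn (hG.comp hcd hcb).continuousOn
    exact (h2.sub h1).comp hzc.continuousOn (fun t _ => hzt t)
  obtain ⟨q, hq, hq1, hq2⟩ := hEN (fun t s => J (U (f (c * zt t))) (f (c * zt t)) (f (c * zt s)))
    (fun t : ℝ => (G (c * zt t)).re - 1 / ent (f (c * zt t))) L (K * D) hL0 hE0 hcont hj1
    (fun t h ht0 htL h0 h1 => sd1 t h (by rw [abs_of_nonneg ht0]; exact htL) h0 h1)
    (fun t h ht0 htL h0 h1 => sd2 t h (by rw [abs_le]; constructor <;> linarith) h0 h1)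
  obtain ⟨q₁, hm, hsq, hi⟩ := hCS q (fun _ => 1) 0 L hq measurable_const
    (fun _ _ => ⟨one_ne_zero, ENNReal.one_ne_top⟩)
  have hlen : LengthLE U (fun t => f (c * zt t)) 0 L
      (ENNReal.ofReal (Real.sqrt (400 * (L + 1) * L * (K * D)))) := by
    refine ⟨q₁, hm, fun t ht => ?_, hi.trans ?_⟩
    · rw [hsq]
      exact hq1 t ht
    · have e1 : (∫⁻ t in Ioo 0 L, (fun _ : ℝ => (1 : ℝ≥0∞)) t * q t) = ∫⁻ t in Ioo 0 L, q t := by
        simp
      have e2 : (∫⁻ t in Ioo 0 L, ((fun _ : ℝ => (1 : ℝ≥0∞)) t)⁻¹) = ENNReal.ofReal L := by simp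
      rw [e1, e2]
      have hp1 : 0 ≤ 400 * (L + 1) * (K * D) := by positivity
      have hp2 : 0 ≤ 400 * (L + 1) * L * (K * D) := by positivity
      calc (∫⁻ t in Ioo 0 L, q t) ^ (1 / 2 : ℝ) * ENNReal.ofReal L ^ (1 / 2 : ℝ)
          ≤ ENNReal.ofReal (400 * (L + 1) * (K * D)) ^ (1 / 2 : ℝ) *
            ENNReal.ofReal L ^ (1 / 2 : ℝ) := by gcongr
        _ = (ENNReal.ofReal (400 * (L + 1) * (K * D)) * ENNReal.ofReal L) ^ (1 / 2 : ℝ) := by
            rw [ENNReal.mul_rpow_of_nonneg _ _ (by norm_num)]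
        _ = ENNReal.ofReal (400 * (L + 1) * L * (K * D)) ^ (1 / 2 : ℝ) := by
            rw [← ENNReal.ofReal_mul hp1]
            congr 2
            ring
        _ = ENNReal.ofReal (Real.sqrt (400 * (L + 1) * L * (K * D))) := by
            rw [ENNReal.ofReal_rpow_of_nonneg hp2 (by norm_num), Real.sqrt_eq_rpow]
        _ ≤ _ := le_rfl
  have hpath := PressureLE.path (U := U) (fun t => f (c * zt t)) 0 L _ hL0
    (Pool.Agent.Helper24.PM.smooth_path _ hf' 0 L) hlen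
  simp only [Pool.Agent.Helper24.PM.zt_zero, mul_zero] at hpath
  rw [hLz, hc2] at hpath
  refine (sInf_le hpath).trans (ENNReal.ofReal_le_ofReal ?_)
  have h1 : Real.sqrt (400 * (L + 1) * L * (K * D)) ≤
      Real.sqrt (400 * (R + 1) * R * K) * Real.sqrt D := by
    rw [← Real.sqrt_mul (by positivity)]
    apply Real.sqrt_le_sqrt
    have h2 : (L + 1) * L ≤ (R + 1) * R := by
      apply mul_le_mul (by linarith) hLR hL0 (by linarith)
    calc 400 * (L + 1) * L * (K * D) = 400 * ((L + 1) * L) * (K * D) := by ring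
      _ ≤ 400 * ((R + 1) * R) * (K * D) := by gcongr
      _ = 400 * (R + 1) * R * K * D := by ring
  calc Real.sqrt (400 * (L + 1) * L * (K * D))
      ≤ Real.sqrt (400 * (R + 1) * R * K) * Real.sqrt D := h1
    _ ≤ (Real.sqrt (400 * (R + 1) * R * K) + 1) * Real.sqrt D :=
        mul_le_mul_of_nonneg_right (by linarith) (Real.sqrt_nonneg _)

end Pool.Agent.Helper27.AS
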