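import Pool.Agent.Helper69.AS.St
import Pool.Agent.Helper86.PM.M_GE1

/-!
# Project AS, module SD: second differences on a flat disc
-/

set_option autoImplicit false

open Filter Topology Matrix Set MeasureTheory
open scoped ENNReal ComplexOrder

namespace Pool.Agent.Helper27.AS

open Pool.Agent.Helper35.PM Pool.Agent.Helper69.AS Helper86.PM

theorem tanh_le {x y : ℝ} (h : x ≤ y) : Real.tanh x ≤ Real.tanh y := by
  have hx := abs_lt.1 (Real.abs_tanh_lt_one x)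
  have hy := abs_lt.1 (Real.abs_tanh_lt_one y)
  rw [← Real.artanh_le_artanh_iff ⟨hx.1, hx.2⟩ ⟨hy.1, hy.2⟩, Real.artanh_tanh, Real.artanh_tanh]
  exact h

theorem tanh_nonneg {x : ℝ} (h : 0 ≤ x) : 0 ≤ Real.tanh x := by
  have h1 := tanh_le h
  rwa [Real.tanh_zero] at h1

theorem zt_norm' (t : ℝ) : ‖zt t‖ = Real.tanh (|t| / 2) := by
  rw [zt_norm]
  rcases abs_cases t with ⟨h1, h2⟩ | ⟨h1, h2⟩
  · rw [h1, abs_of_nonneg (tanh_nonneg (by linarith))]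
  · rw [h1, neg_div, Real.tanh_neg, abs_of_nonpos]
    have h3 := tanh_le (show t / 2 ≤ 0 by linarith)
    rwa [Real.tanh_zero] at h3

theorem tau_ge : 1 / 5 ≤ Real.tanh (1 / 4) := by
  have h1 := tanh_exp (1 / 4)
  have h2 := (abs_lt.1 (Real.abs_tanh_lt_one (1 / 4))).2
  have h3 := Real.add_one_le_exp (2 * (1 / 4 : ℝ))
  rw [div_eq_iff (by linarith)] at h1
  nlinarith

theorem th_le {h : ℝ} (h0 : 0 < h) (h1 : h ≤ 1 / 8) : Real.tanh (h / 2) ≤ 8 / 15 * h := by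
  have h2 := tanh_exp (h / 2)
  have h3 := (abs_lt.1 (Real.abs_tanh_lt_one (h / 2))).2
  have h4 := Real.add_one_le_exp (-(2 * (h / 2)))
  rw [Real.exp_neg] at h4
  have h5 : 0 < Real.exp (2 * (h / 2)) := Real.exp_pos _
  rw [div_eq_iff (by linarith)] at h2
  have h6 : (1 - h) * Real.exp (2 * (h / 2)) ≤ 1 := by
    have h7 : (-(2 * (h / 2)) + 1) * Real.exp (2 * (h / 2)) ≤
        (Real.exp (2 * (h / 2)))⁻¹ * Real.exp (2 * (h / 2)) :=
      mul_le_mul_of_nonneg_right h4 h5.le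
    rw [inv_mul_cancel₀ h5.ne'] at h7
    linarith [h7]
  have h8 : 0 ≤ Real.tanh (h / 2) := tanh_nonneg (by linarith)
  -- (1 + T)(1 - h) ≤ 1 - T
  have h9 : (1 + Real.tanh (h / 2)) * (1 - h) ≤ 1 - Real.tanh (h / 2) := by
    rw [h2]
    have h10 : (1 - h) * Real.exp (2 * (h / 2)) * (1 - Real.tanh (h / 2)) ≤
        1 * (1 - Real.tanh (h / 2)) := mul_le_mul_of_nonneg_right h6 (by linarith)
    linarith [h10]
  nlinarith

theorem mob_eq (t : ℝ) (w : ℂ) : mob (zt t) w = mb (Real.tanh (t / 2)) w := by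
  unfold mob mb zt
  rw [Complex.conj_ofReal]

theorem mb_bd (hMB : StMB) {L t : ℝ} (ht : |t| ≤ L + 1 / 2) {w : ℂ}
    (hw : ‖w‖ ≤ Real.tanh (1 / 4)) :
    ‖mb (Real.tanh (t / 2)) w‖ ≤ Real.tanh ((L + 1) / 2) := by
  have hτ1 := (abs_lt.1 (Real.abs_tanh_lt_one (1 / 4))).2
  have hX : ‖zt t‖ < 1 := by
    have h := zt_mem t
    rwa [mem_ball_zero_iff] at h
  have h1 := (hMB.1 (zt t) w hX (by linarith)).2.1
  rw [mob_eq] at h1
  refine h1.trans ?_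
  have h2 : (‖zt t‖ + ‖w‖) / (1 + ‖zt t‖ * ‖w‖) ≤
      (Real.tanh (1 / 4) + ‖zt t‖) / (1 + ‖zt t‖ * Real.tanh (1 / 4)) := by
    have hX0 := norm_nonneg (zt t)
    have hw0 := norm_nonneg w
    have hτ0 : 0 ≤ Real.tanh (1 / 4) := by linarith
    rw [div_le_div_iff₀ (by positivity) (by positivity)]
    have h3 : ‖w‖ * (1 - ‖zt t‖ ^ 2) ≤ Real.tanh (1 / 4) * (1 - ‖zt t‖ ^ 2) :=
      mul_le_mul_of_nonneg_right hw (by nlinarith)
    nlinarith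
  refine h2.trans ?_
  rw [zt_norm', ← tanh_add']
  apply tanh_le
  linarith

theorem ar1 {x h E F : ℝ} (hx0 : 0 ≤ x) (hx1 : x ≤ 8 / 3 * h) (hx3 : x ≤ 1 / 3) (h0 : 0 < h)
    (hF0 : 0 ≤ F) (hFE : F ≤ E) : (1 + x) / (1 - x) * F ≤ F + 8 * h * E := by
  have hE : 0 ≤ E := hF0.trans hFE
  rw [div_mul_eq_mul_div, div_le_iff₀ (by linarith)]
  have e2 : x * F ≤ 8 / 3 * h * E := mul_le_mul hx1 hFE hF0 (by positivity)
  have e3 : 8 * h * E * (2 / 3) ≤ 8 * h * E * (1 - x) :=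
    mul_le_mul_of_nonneg_left (by linarith) (by positivity)
  linarith

theorem ar2 {x h E F : ℝ} (hx0 : 0 ≤ x) (hx1 : x ≤ 8 / 3 * h) (hx3 : x ≤ 1 / 3) (h0 : 0 < h)
    (hF0 : 0 ≤ F) (hFE : F ≤ E) :
    2 * ((1 + x ^ 2) / (1 - x ^ 2)) * F ≤ 2 * F + 32 * h ^ 2 * E := by
  have hE : 0 ≤ E := hF0.trans hFE
  have hx2 : x ^ 2 ≤ 64 / 9 * h ^ 2 := by
    have h1 := pow_le_pow_left₀ hx0 hx1 2
    linarith [h1]
  have hx9 : x ^ 2 ≤ 1 / 9 := by
    have h1 := pow_le_pow_left₀ hx0 hx3 2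
    linarith [h1]
  rw [mul_div_assoc', div_mul_eq_mul_div, div_le_iff₀ (by linarith)]
  have e2 : x ^ 2 * F ≤ 64 / 9 * h ^ 2 * E := mul_le_mul hx2 hFE hF0 (by positivity)
  have e3 : 32 * h ^ 2 * E * (8 / 9) ≤ 32 * h ^ 2 * E * (1 - x ^ 2) :=
    mul_le_mul_of_nonneg_left (by linarith) (by positivity)
  linarith

theorem key (hHK : St_HK) (hMB : StMB) (u : ℂ → ℝ) (j : ℂ → ℂ → ℝ) (hP : Pot u j) (L E : ℝ)
    (G : ℂ → ℂ) (hE : 0 ≤ E) (hG : DifferentiableOn ℂ G (Metric.ball 0 1))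
    (hGu : ∀ ζ : ℂ, ‖ζ‖ ≤ Real.tanh ((L + 1) / 2) → u ζ ≤ (G ζ).re ∧ (G ζ).re - u ζ ≤ E)
    (t : ℝ) (ht : |t| ≤ L + 1 / 2) (h : ℝ) (h0 : 0 < h) (h1 : h ≤ 1 / 8) :
    ∃ A B : ℝ, A = j (zt t) (zt (t + h)) * u (zt (t + h)) ∧
      B = j (zt t) (zt (t - h)) * u (zt (t - h)) ∧ u (zt (t + h)) ≤ A ∧ u (zt (t - h)) ≤ B ∧
      A - (G (zt (t + h))).re ≤ u (zt t) - (G (zt t)).re + 8 * h * E ∧
      B - (G (zt (t - h))).re ≤ u (zt t) - (G (zt t)).re + 8 * h * E ∧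
      (A - (G (zt (t + h))).re) + (B - (G (zt (t - h))).re) ≤
        2 * (u (zt t) - (G (zt t)).re) + 32 * h ^ 2 * E := by
  obtain ⟨hu, hpot⟩ := hP
  obtain ⟨Gt, hd, hG1, hG2⟩ := hpot (zt t) (zt_mem t)
  set a : ℝ := Real.tanh (t / 2) with ha
  set τ : ℝ := Real.tanh (1 / 4) with hτ
  have ha1 : |a| < 1 := tanh_abs_lt _
  have hτ5 : 1 / 5 ≤ τ := tau_ge
  have hτ1 : τ < 1 := (abs_lt.1 (Real.abs_tanh_lt_one (1 / 4))).2
  have hτn : ∀ ζ : ℂ, ‖(τ : ℂ) * ζ‖ = τ * ‖ζ‖ := fun ζ => by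
    rw [norm_mul, Complex.norm_real, Real.norm_of_nonneg (by linarith)]
  have hτball : ∀ ζ ∈ Metric.ball (0 : ℂ) 1, (τ : ℂ) * ζ ∈ Metric.ball (0 : ℂ) 1 := by
    intro ζ hζ
    rw [mem_ball_zero_iff] at hζ ⊢
    rw [hτn]
    calc τ * ‖ζ‖ ≤ 1 * ‖ζ‖ := mul_le_mul_of_nonneg_right hτ1.le (norm_nonneg ζ)
      _ < 1 := by linarith
  have hmb : ∀ ζ ∈ Metric.ball (0 : ℂ) 1, mb a ((τ : ℂ) * ζ) ∈ Metric.ball (0 : ℂ) 1 :=
    fun ζ hζ => mb_mem ha1 (hτball ζ hζ)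
  have hmbd : DifferentiableOn ℂ (fun ζ : ℂ => mb a ((τ : ℂ) * ζ)) (Metric.ball 0 1) :=
    (mb_diff ha1).comp (by fun_prop) hτball
  set F : ℂ → ℂ := fun ζ => Gt (mb a ((τ : ℂ) * ζ)) - G (mb a ((τ : ℂ) * ζ)) + (E : ℂ) with hF
  have hFd : DifferentiableOn ℂ F (Metric.ball 0 1) :=
    ((hd.comp hmbd hmb).sub (hG.comp hmbd hmb)).add_const _
  have hFre : ∀ ζ, (F ζ).re = (Gt (mb a ((τ : ℂ) * ζ))).re - (G (mb a ((τ : ℂ) * ζ))).re + E := by
    intro ζ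
    simp only [hF, Complex.add_re, Complex.sub_re, Complex.ofReal_re]
  have hbd : ∀ ζ ∈ Metric.ball (0 : ℂ) 1, ‖mb a ((τ : ℂ) * ζ)‖ ≤ Real.tanh ((L + 1) / 2) := by
    intro ζ hζ
    apply mb_bd hMB ht
    rw [mem_ball_zero_iff] at hζ
    rw [hτn]
    calc τ * ‖ζ‖ ≤ τ * 1 := mul_le_mul_of_nonneg_left hζ.le (by linarith)
      _ = τ := mul_one τ
  have hF0 : ∀ ζ ∈ Metric.ball (0 : ℂ) 1, 0 ≤ (F ζ).re := by
    intro ζ hζ
    rw [hFre]
    have e1 := (hG1 _ (hmb ζ hζ)).2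
    have e2 := (hGu _ (hbd ζ hζ)).2
    linarith
  have hz0 : (0 : ℂ) ∈ Metric.ball (0 : ℂ) 1 := by simp
  have hF00 : (F 0).re = u (zt t) - (G (zt t)).re + E := by
    rw [hFre, mul_zero, mb_zero, hG2]
  have hP0 : (F 0).re ≤ E := by
    rw [hF00]
    have e1 := hbd 0 hz0
    rw [mul_zero, mb_zero] at e1
    linarith [(hGu _ e1).1]
  have hP00 := hF0 0 hz0
  -- the point
  set T : ℝ := Real.tanh (h / 2) with hT
  have hT0 : 0 ≤ T := tanh_nonneg (by linarith)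
  have hT1 : T ≤ 8 / 15 * h := th_le h0 h1
  set x : ℝ := T / τ with hx
  have hx0 : 0 ≤ x := div_nonneg hT0 (by linarith)
  have hxτ : x * τ = T := div_mul_cancel₀ _ (by linarith)
  have hx1 : x ≤ 8 / 3 * h := by
    rw [hx, div_le_iff₀ (by linarith)]
    have e1 : 8 / 3 * h * (1 / 5) ≤ 8 / 3 * h * τ := mul_le_mul_of_nonneg_left hτ5 (by positivity)
    linarith
  have hx3 : x ≤ 1 / 3 := by linarith
  have hxn : ‖(x : ℂ)‖ = x := by rw [Complex.norm_real, Real.norm_of_nonneg hx0]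
  have hxn' : ‖-(x : ℂ)‖ = x := by rw [norm_neg, hxn]
  have hxb : (x : ℂ) ∈ Metric.ball (0 : ℂ) 1 := by
    rw [mem_ball_zero_iff, hxn]
    linarith
  have hxb' : -(x : ℂ) ∈ Metric.ball (0 : ℂ) 1 := by
    rw [mem_ball_zero_iff, hxn']
    linarith
  have hpt : (τ : ℂ) * (x : ℂ) = zt h := by
    rw [← Complex.ofReal_mul, mul_comm, hxτ]
    rfl
  have hpt' : (τ : ℂ) * (-(x : ℂ)) = zt (-h) := by
    rw [mul_neg, hpt, zt_neg]
  have hFx : (F x).re = (Gt (zt (t + h))).re - (G (zt (t + h))).re + E := by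
    rw [hFre, hpt, ha, mb_zt]
  have hFx' : (F (-(x : ℂ))).re = (Gt (zt (t - h))).re - (G (zt (t - h))).re + E := by
    rw [hFre, hpt', ha, mb_zt, ← sub_eq_add_neg]
  have k1 := hHK F hFd hF0 x hxb
  have k2 := hHK F hFd hF0 (-(x : ℂ)) hxb'
  rw [hxn] at k1
  rw [hxn'] at k2
  have c1 : (1 + x) / (1 - x) * (F 0).re ≤ (F 0).re + 8 * h * E :=
    ar1 hx0 hx1 hx3 h0 hP00 hP0
  have c2 : 2 * ((1 + x ^ 2) / (1 - x ^ 2)) * (F 0).re ≤ 2 * (F 0).re + 32 * h ^ 2 * E :=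
    ar2 hx0 hx1 hx3 h0 hP00 hP0
  refine ⟨(Gt (zt (t + h))).re, (Gt (zt (t - h))).re, (hG1 _ (zt_mem _)).1, (hG1 _ (zt_mem _)).1,
    (hG1 _ (zt_mem _)).2, (hG1 _ (zt_mem _)).2, ?_, ?_, ?_⟩
  · have e := k1.1.trans c1
    rw [hFx, hF00] at e
    linarith
  · have e := k2.1.trans c1
    rw [hFx', hF00] at e
    linarith
  · have e := k1.2.1.trans c2
    rw [hFx, hFx', hF00] at e
    linarith

theorem hSD (hHK : St_HK) (hMB : StMB) : StSD := by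
  intro u j hP L E G hL hE hG hGu
  have hu := hP.1
  have hg : ∀ t : ℝ, |t| ≤ L + 1 → 0 ≤ (G (zt t)).re - u (zt t) ∧ (G (zt t)).re - u (zt t) ≤ E := by
    intro t ht
    have e : ‖zt t‖ ≤ Real.tanh ((L + 1) / 2) := by
      rw [zt_norm']
      apply tanh_le
      linarith
    have := hGu _ e
    exact ⟨by linarith [this.1], this.2⟩
  constructor
  · intro t h ht h0 h1
    obtain ⟨A, B, hA, hB, hA', hB', -, -, h5⟩ :=
      key hHK hMB u j hP L E G hE hG hGu t (by linarith) h h0 h1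
    have u1 := hu _ (zt_mem (t + h))
    have u2 := hu _ (zt_mem (t - h))
    have j1 : 1 ≤ j (zt t) (zt (t + h)) := by
      by_contra hcon
      push Not at hcon
      nlinarith
    have j2 : 1 ≤ j (zt t) (zt (t - h)) := by
      by_contra hcon
      push Not at hcon
      nlinarith
    have e1 : 1 / 2 * (j (zt t) (zt (t + h)) - 1) ≤ A - u (zt (t + h)) := by
      rw [hA]
      nlinarith
    have e2 : 1 / 2 * (j (zt t) (zt (t - h)) - 1) ≤ B - u (zt (t - h)) := by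
      rw [hB]
      nlinarith
    have e3 : 32 * h ^ 2 * E ≤ 100 * h ^ 2 * E := by
      have : 0 ≤ h ^ 2 * E := by positivity
      linarith
    linarith
  · intro t h ht h0 h1
    have hE' : 8 * h * E ≤ 100 * h * E := by
      have : 0 ≤ h * E := by positivity
      linarith
    obtain ⟨A, B, -, -, hA', -, h5, -, -⟩ :=
      key hHK hMB u j hP L E G hE hG hGu t (by linarith) h h0 h1
    have hth : |t + h| ≤ L + 1 / 2 := by
      have := abs_add_le t h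
      rw [abs_of_pos h0] at this
      linarith
    obtain ⟨A', B', -, -, -, hB', -, h6, -⟩ :=
      key hHK hMB u j hP L E G hE hG hGu (t + h) hth h h0 h1
    rw [add_sub_cancel_right] at hB' h6
    rw [abs_le]
    constructor <;> linarith

end Pool.Agent.Helper27.AS
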